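import Pool.Agent.H249_JS.G5
import Pool.Agent.Y549.SP.LS3
import Pool.Agent.Y549.SP.BL
import Pool.Agent.Y549.SP.PJ

set_option autoImplicit false

/-!
# Every `k`-tuple of imaginary quadratic discriminants has small multipliers after which all the
# `2 ^ k` splitting types are equidistributed among the small primes, with a power saving

Let `D 1, ..., D k` be ANY negative fundamental discriminants and let `T` be the largest of the
numbers `|D i|`, let `Q` be a set with at least `κ y ^ ρ / log y` primes up to `y`, where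
`0 < ρ ≤ 1`, let `0 ≤ θ < ρ / 4` and let `a > 1 / (ρ - θ)`, `b` and `η > 0` be given.  (For the set of
all primes `θ < 1 / 4` and `a > 1 / (1 - θ)` are arbitrary.)  If `T` is large enough then there are
squarefree `m i ≤ (log T) ^ C` such that all `d i = D i * m i` are fundamental discriminants and the
`2 ^ k` splitting types of a prime in the `k` fields `ℚ(√(d i))` (split or inert in each of them) are
equidistributed among the primes `p < t` in `Q`, with the relative error `η t ^ (-θ)`, for ALL `t`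
with `(log T) ^ a ≤ t ≤ (log T) ^ b`; also at the threshold `(log |d|) ^ 2 (log log |d|) ^ 2` of the
question, for the largest of the `|d i|`, if `ρ - θ > 1 / 2`.
-/

namespace Pool.Agent.Results.MP_aaa0df_nt.EveryTuple

/-- the fundamental discriminants `d < 0`, that is, the discriminants of the imaginary quadratic
fields (as in the frozen statement) -/
def NegFund (d : ℤ) : Prop := d < 0 ∧ ((d % 4 = 1 ∧ Squarefree d) ∨
  ∃ m : ℤ, d = 4 * m ∧ (m % 4 = 2 ∨ m % 4 = 3) ∧ Squarefree m)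

/-- `p` splits in the quadratic field of discriminant `d` (as in the frozen statement) -/
def Splits (d : ℤ) (p : ℕ) : Prop := ¬ (p : ℤ) ∣ d ∧ ∃ x : ℤ, (4 * (p : ℤ)) ∣ x ^ 2 - d

/-- `p` is inert in the quadratic field of discriminant `d` -/
def Inert (d : ℤ) (p : ℕ) : Prop := ¬ (p : ℤ) ∣ d ∧ ¬ ∃ x : ℤ, (4 * (p : ℤ)) ∣ x ^ 2 - d

/-- `p` has the type `σ`: it splits in the field of discriminant `d i` if `σ i` is true and is inert
in it if `σ i` is false -/
def HasType {k : ℕ} (d : Fin k → ℤ) (σ : Fin k → Bool) (p : ℕ) : Prop :=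
  ∀ i, if σ i = true then Splits (d i) p else Inert (d i) p

/-- each of the `2 ^ k` types is that of the proportion `2 ^ (-k)` of the primes in the finite set
`P`, up to the relative error `η` -/
def Balanced {k : ℕ} (P : Set ℕ) (d : Fin k → ℤ) (η : ℝ) : Prop := ∀ σ : Fin k → Bool,
  |2 ^ k * ({p | p ∈ P ∧ HasType d σ p}.ncard : ℝ) - P.ncard| ≤ η * P.ncard

/-- the primes `p ≤ y` in the set `Q` -/
def primesIn (Q : Set ℕ) (y : ℕ) : Set ℕ := {p | p.Prime ∧ p ≤ y ∧ p ∈ Q}

/-- the primes `p < t` in the set `Q` -/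
def below (Q : Set ℕ) (t : ℝ) : Set ℕ := {p | p.Prime ∧ p ∈ Q ∧ (p : ℝ) < t}

/-- at least `κ y ^ ρ / log y` primes `p ≤ y` lie in `Q`, for all large `y`, for some `κ > 0` -/
def Thick (Q : Set ℕ) (ρ : ℝ) : Prop := ∃ κ : ℝ, 0 < κ ∧ ∃ y₀ : ℕ, ∀ y : ℕ, y₀ ≤ y →
  κ * (y : ℝ) ^ ρ ≤ (primesIn Q y).ncard * Real.log y

/-- the largest of the numbers `|d i|` -/
def top {k : ℕ} (d : Fin k → ℤ) : ℕ := Finset.univ.sup fun i => (d i).natAbs

/-- the threshold `(log |d|) ^ 2 (log log |d|) ^ 2` of the question for the largest of the `k`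
discriminants -/
noncomputable def thr {k : ℕ} (d : Fin k → ℤ) : ℝ :=
  Real.log (top d) ^ 2 * Real.log (Real.log (top d)) ^ 2

open Pool.Agent.Y549.SP in
lemma bad : Pool.Agent.H249_JS.S_BAD4 :=
  Pool.Agent.H249_JS.bad4 BL.main (LS3.main PJ.main) Pool.Agent.H249_JS.num4

theorem result (k : ℕ) (ρ θ a b η : ℝ) (Q : Set ℕ) (hθ : 0 ≤ θ) (hθρ : 4 * θ < ρ) (hρ1 : ρ ≤ 1)
    (ha : 1 < a * (ρ - θ)) (hη : 0 < η) (hQ : Thick Q ρ) :
    ∃ C T₀ : ℝ, 0 < C ∧ ∀ D : Fin k → ℤ, (∀ i, NegFund (D i)) → T₀ ≤ top D →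
      ∃ m : Fin k → ℕ, (∀ i, 1 ≤ m i ∧ (m i : ℝ) ≤ Real.log (top D) ^ C ∧ Squarefree (m i) ∧
          NegFund (D i * (m i : ℤ))) ∧
        (∀ t : ℝ, Real.log (top D) ^ a ≤ t → t ≤ Real.log (top D) ^ b →
          Balanced (below Q t) (fun i => D i * (m i : ℤ)) (η * t ^ (-θ))) ∧
        (1 / 2 < ρ - θ →
          Balanced (below Q (thr (fun i => D i * (m i : ℤ)))) (fun i => D i * (m i : ℤ))
            (η * thr (fun i => D i * (m i : ℤ)) ^ (-θ))) :=
  Pool.Agent.H249_JS.every5 bad k ρ θ a b η Q hθ hθρ hρ1 ha hη hQ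

end Pool.Agent.Results.MP_aaa0df_nt.EveryTuple
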