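import Pool.Agent.H249_JS.J
import Pool.Agent.Y549.SP.LS3
import Pool.Agent.Y549.SP.BL
import Pool.Agent.Y549.SP.PJ

set_option autoImplicit false

/-!
# Small primes of every splitting type in `k` imaginary quadratic fields at once

Let `D 1, ..., D k` be ANY nonzero integers and let `Q` be ANY set of primes.  For all but
`K X ^ (k - ρ + 1 / A + 4 * θ + ε)` of the vectors `m` of squarefree numbers `m i ≤ X` for which the
numbers `d i = D i * m i` are discriminants of imaginary quadratic fields, the `2 ^ k` splitting types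
of a prime in these `k` fields (split or inert in each of them) are equidistributed among the primes
`p ≤ y` in `Q`, with the relative error `η y ^ (-θ)`, for ALL `y` from `(log X / A) ^ A` up to a power
of `X` with `y ≥ (log |D i|) ^ (1 / τ)` for which at least `κ y ^ ρ / log y` primes up to `y` lie in
`Q`.  Here `0 < ρ ≤ 1`, `θ ≥ 0`, `4 θ + 1 / A < ρ` and `τ + θ < ρ` are arbitrary, and the constants
depend neither on `Q` nor on the `D i`.

For `A = 2`, `ρ = 1`, `D i` in `{-1, -4}` and `Q` the set of all primes these are all but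
`K X ^ (k - 1 / 2 + 4 * θ + ε)` of the `k`-tuples of discriminants up to `X`, `0 ≤ θ < 1 / 8`, and the
range of `y` contains the threshold `(log |d|) ^ 2 (log log |d|) ^ 2` of the question.
-/

namespace Pool.Agent.Results.MP_aaa0df_nt.JointSplitting

/-- the fundamental discriminants `d < 0`, that is, the discriminants of the imaginary quadratic
fields (as in the frozen statement) -/
def NegFund (d : ℤ) : Prop := d < 0 ∧ ((d % 4 = 1 ∧ Squarefree d) ∨
  ∃ m : ℤ, d = 4 * m ∧ (m % 4 = 2 ∨ m % 4 = 3) ∧ Squarefree m)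

/-- `p` splits in the quadratic field of discriminant `d` (as in the frozen statement) -/
def Splits (d : ℤ) (p : ℕ) : Prop := ¬ (p : ℤ) ∣ d ∧ ∃ x : ℤ, (4 * (p : ℤ)) ∣ x ^ 2 - d

/-- `p` is inert in the quadratic field of discriminant `d` -/
def Inert (d : ℤ) (p : ℕ) : Prop := ¬ (p : ℤ) ∣ d ∧ ¬ ∃ x : ℤ, (4 * (p : ℤ)) ∣ x ^ 2 - d

/-- `p` has the type `σ`: it splits in the field of discriminant `d i` if `σ i` is true and is inert
in it if `σ i` is false -/
def HasType {k : ℕ} (d : Fin k → ℤ) (σ : Fin k → Bool) (p : ℕ) : Prop :=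
  ∀ i, if σ i = true then Splits (d i) p else Inert (d i) p

/-- each of the `2 ^ k` types is that of the proportion `2 ^ (-k)` of the primes in the finite set
`P`, up to the relative error `η` -/
def Balanced {k : ℕ} (P : Set ℕ) (d : Fin k → ℤ) (η : ℝ) : Prop := ∀ σ : Fin k → Bool,
  |2 ^ k * ({p | p ∈ P ∧ HasType d σ p}.ncard : ℝ) - P.ncard| ≤ η * P.ncard

/-- the primes `p ≤ y` in the set `Q` -/
def primesIn (Q : Set ℕ) (y : ℕ) : Set ℕ := {p | p.Prime ∧ p ≤ y ∧ p ∈ Q}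

open Pool.Agent.Y549.SP in
lemma bad : Pool.Agent.H249_JS.S_BAD4 :=
  Pool.Agent.H249_JS.bad4 BL.main (LS3.main PJ.main) Pool.Agent.H249_JS.num4

theorem result (k : ℕ) (A ρ τ θ κ η ε : ℝ) (hk : 1 ≤ k) (hA0 : 0 < A) (hρ1 : ρ ≤ 1)
    (hθ : 0 ≤ θ) (hA : 4 * θ + 1 / A < ρ) (hτ : τ + θ < ρ) (hκ : 0 < κ) (hη : 0 < η)
    (hε : 0 < ε) :
    ∃ c K : ℝ, 0 < c ∧ 0 < K ∧ ∀ (Q : Set ℕ) (D : Fin k → ℤ) (X : ℕ), (∀ i, D i ≠ 0) → 1 ≤ X →
      ({m : Fin k → ℕ | (∀ i, m i ≤ X ∧ Squarefree (m i) ∧ NegFund (D i * (m i : ℤ))) ∧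
        ∃ y : ℕ, (Real.log X / A) ^ A ≤ y ∧ (y : ℝ) ≤ (X : ℝ) ^ c ∧
          (∀ i, Real.log |(D i : ℝ)| ≤ (y : ℝ) ^ τ) ∧
          κ * (y : ℝ) ^ ρ ≤ (primesIn Q y).ncard * Real.log y ∧
          ¬ Balanced (primesIn Q y) (fun i => D i * (m i : ℤ)) (η * (y : ℝ) ^ (-θ))}.ncard : ℝ) ≤
        K * (X : ℝ) ^ (k - ρ + 1 / A + 4 * θ + ε) :=
  Pool.Agent.H249_JS.set4 bad k hk A ρ τ θ κ η ε hA0 hρ1 hθ hA hτ hκ hη hε

end Pool.Agent.Results.MP_aaa0df_nt.JointSplitting
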